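import Mathlib
import Pool.Agent.H238Z.AmpStar

/-!
# The modulus of the graph amplitude can be less than one

The graph is the double star with two adjacent centres and five leaves at each centre.
The definitions are in `Pool.Agent.H238Z.AmpDefs`.
-/

namespace Pool.Agent.Results.MP_229e70_co.Disproof

open Pool.Agent.H238Z.Amp

/-- There are a finite connected simple graph `G` and a configuration `x` in `C_G(ℝ³)` (even with
all points distinct) such that, for every admissible choice of spinors and orientation (such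
choices exist), the denominator is nonzero and `|A_G(x)| < 1`. -/
theorem result : ∃ (n : ℕ) (G : SimpleGraph (Fin n)) (x : Fin n → E3),
    G.Connected ∧ Function.Injective x ∧ Admissible G x ∧
    (∃ ψ Δ, IsSpinorChoice G x ψ ∧ IsOrientation G Δ) ∧
    ∀ ψ Δ, IsSpinorChoice G x ψ → IsOrientation G Δ →
      denom G ψ Δ ≠ 0 ∧ ‖amplitude G ψ Δ‖ < 1 := by
  obtain ⟨h1, h2, h3, h4, h5⟩ := main
  refine ⟨12, DS, xx, h1.1, h2, h3, h4, fun ψ Δ hψ hΔ => ⟨(h5 ψ Δ hψ hΔ).1, ?_⟩⟩
  rw [(h5 ψ Δ hψ hΔ).2]
  simp

end Pool.Agent.Results.MP_229e70_co.Disproof
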